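import Mathlib
import Pool.Agent.W406.TW.LT

/-! # Primes with a given Frobenius trace for almost all quadratic twists of an elliptic curve -/

namespace Pool.Agent.Results.MP_d74fca_nt.TraceSigns

open Pool.Agent.W406.TW

/-- `piT A B t x` is the number of primes `p ≤ x` not dividing `2 (4 A³ + 27 B²)` at which the trace
of Frobenius `ap A B p` of the curve `y² = x³ + A x + B` is equal to `t`.
For all but at most `N ^ (1 - c)` of the quadratic twists `y² = x³ + A D² x + B D³`, `|D| ≤ N`,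
the numbers for the twist are, for all `x` in the range and all `t ≠ 0`, the means of the numbers for
the curve itself at `t` and `-t`, with an error `√n · x ^ ε`, where `n` is the number of the primes
with trace `t` or `-t`. The constants depend only on `ε`. -/
theorem result (ε : ℝ) (hε : 0 < ε) :
    ∃ C c : ℝ, 0 < C ∧ 0 < c ∧ ∃ N₀ : ℕ, ∀ N : ℕ, N₀ ≤ N → ∀ A B : ℤ,
      ({D : ℤ | D ≠ 0 ∧ |D| ≤ N ∧ ∃ x : ℕ, (Real.log N) ^ C ≤ x ∧ (x : ℝ) ≤ (N : ℝ) ^ c ∧
        ∃ t : ℤ, t ≠ 0 ∧ √((piT A B t x : ℝ) + piT A B (-t) x) * (x : ℝ) ^ ε <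
          |(piT (A * D ^ 2) (B * D ^ 3) t x : ℝ) - (piT A B t x + piT A B (-t) x) / 2|}.ncard : ℝ) ≤
        (N : ℝ) ^ (1 - c) :=
  lt_main ε hε

end Pool.Agent.Results.MP_d74fca_nt.TraceSigns
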